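import Pool.Agent.P.MP_72aa19_al.Example

/-!
MP_72aa19_al, negative answer to Q1: a standard graded domain `R` over `ℚ` and a homogeneous
ideal `I` whose ordinary powers satisfy `reg (I ^ k) = k + 4 < k + 5 = v (I ^ k)` for all `k ≥ 2`.
-/

namespace Pool.Agent.P.MP_72aa19_al.Old.DomainCounterexample

open Pool.Agent.P.MP_72aa19_al

/-- `R` is standard graded over `ℚ` with generators `x`, `I` is a proper homogeneous ideal with
Noetherian Rees algebra, and `reg (I ^ k) = k + 4 < k + 5 = v (I ^ k)` for `k ≥ 2`. -/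
def IsCounterexample {R : Type} [CommRing R] [IsDomain R] [Algebra ℚ R]
    (𝒜 : ℕ → Submodule ℚ R) [GradedAlgebra 𝒜] {n : ℕ} (x : Fin n → R) (I : Ideal R) : Prop :=
  (∀ i, x i ∈ 𝒜 1) ∧ (∀ i, x i ≠ 0) ∧ Algebra.adjoin ℚ (Set.range x) = ⊤ ∧
  (∀ f ∈ 𝒜 0, ∃ c : ℚ, f = algebraMap ℚ R c) ∧
  (HomogeneousIdeal.irrelevant 𝒜).toIdeal = Ideal.span (Set.range x) ∧
  I.IsHomogeneous 𝒜 ∧ I ≠ ⊤ ∧ IsNoetherianRing (reesAlgebra I) ∧
  ∀ k : ℕ, 2 ≤ k →
    reg 𝒜 x (I ^ k) = ((k + 4 : ℕ) : ℝ) ∧ vNumber 𝒜 (I ^ k) = ((k + 5 : ℕ) : ℝ) ∧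
    reg 𝒜 x (I ^ k) < vNumber 𝒜 (I ^ k)

theorem result :
    ∃ (R : Type) (_ : CommRing R) (_ : IsDomain R) (_ : Algebra ℚ R)
      (𝒜 : ℕ → Submodule ℚ R) (_ : GradedAlgebra 𝒜) (n : ℕ) (x : Fin n → R) (I : Ideal R),
      IsCounterexample 𝒜 x I := by
  have hadj : Algebra.adjoin ℚ (Set.range x20) = ⊤ := by rw [range_x20, adjoin_xx]
  have hft : Algebra.FiniteType ℚ Rg := by
    classical
    exact ⟨⟨Finset.univ.image x20, by simpa using hadj⟩⟩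
  have hN : IsNoetherianRing Rg := Algebra.FiniteType.isNoetherianRing ℚ Rg
  refine ⟨Rg, inferInstance, inferInstance, inferInstance, Gr, inferInstance, 2 * 10, x20,
    setup.I, setup.gen.deg, setup.gen.ne, hadj, grade_zero_eq setup.gen.deg hadj,
    irrelevant_eq setup.gen.deg hadj, setup.I_homog, setup.I_ne_top, inferInstance,
    fun k hk => ?_⟩
  have h1 : reg Gr x20 (setup.I ^ k) = ((k + 4 : ℕ) : ℝ) := setup.reg_eq hk
  have h2 : vNumber Gr (setup.I ^ k) = ((k + 5 : ℕ) : ℝ) := setup.v_eq (by omega)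
  refine ⟨h1, h2, ?_⟩
  rw [h1, h2]
  exact_mod_cast (by omega : k + 4 < k + 5)

end Pool.Agent.P.MP_72aa19_al.Old.DomainCounterexample
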